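import Mathlib

namespace Pool.Agent.Results.MP_35dbbb_co.Lex

open SimpleGraph

/-- `c` is a nonrepetitive colouring of `G`. -/
def Nonrep {V C : Type} (G : SimpleGraph V) (c : V → C) : Prop :=
  ∀ t : ℕ, 1 ≤ t → ∀ p : ℕ → V, Set.InjOn p (Set.Iio (2 * t)) →
    (∀ i, i + 1 < 2 * t → G.Adj (p i) (p (i + 1))) → ∃ i < t, c (p i) ≠ c (p (t + i))

/-- `a` is the Thue chromatic number of `G`. -/
def Thue {V : Type} (G : SimpleGraph V) (a : ℕ) : Prop :=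
  IsLeast {k | ∃ c : V → Fin k, Nonrep G c} a

/-- lexicographic product -/
def lex {V W : Type} (G : SimpleGraph V) (H : SimpleGraph W) : SimpleGraph (V × W) where
  Adj x y := G.Adj x.1 y.1 ∨ (x.1 = y.1 ∧ H.Adj x.2 y.2)
  symm := ⟨fun _ _ h => h.imp G.adj_symm fun h => ⟨h.1.symm, h.2.symm⟩⟩
  loopless := ⟨fun _ h => h.elim (G.irrefl) fun h => H.irrefl h.2⟩

theorem nonrep_inj {V C : Type} (G : SimpleGraph V) (c : V → C) (hc : Function.Injective c) :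
    Nonrep G c := by
  intro t ht p hp _
  refine ⟨0, by omega, fun h => ?_⟩
  have := hp (by simp; omega) (by simp; omega) (hc h)
  omega

def col (x : Fin 10 × Fin 10) : Fin 30 :=
  if x.1.val % 2 = 0 then ⟨25 + x.1.val / 2, by omega⟩
  else ⟨(10 * (x.1.val / 2) + x.2.val) % 25, by omega⟩

theorem f1 : ∀ x y : Fin 10 × Fin 10, x.1.val % 2 = 0 → col x = col y → x.1 = y.1 := by
  decide +kernel

theorem f2 : ∀ g : Fin 10, g.val % 2 = 0 → ∀ x : Fin 10 × Fin 10, (cycleGraph 10).Adj g x.1 →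
    ∀ y : Fin 10 × Fin 10, (cycleGraph 10).Adj g y.1 → col x = col y → x = y := by
  decide +kernel

theorem f3 : ∀ x y : Fin 10 × Fin 10, (cycleGraph 10).Adj x.1 y.1 → col x ≠ col y := by
  decide +kernel

theorem f4 : ∀ g h : Fin 10, (cycleGraph 10).Adj g h → g.val % 2 = 0 ∨ h.val % 2 = 0 := by
  decide +kernel

theorem upper : Nonrep (lex (cycleGraph 10) (⊥ : SimpleGraph (Fin 10))) col := by
  intro t ht p hp ha
  have ha' : ∀ i, i + 1 < 2 * t → (cycleGraph 10).Adj (p i).1 (p (i + 1)).1 := fun i hi =>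
    (ha i hi).elim id fun h => h.2.elim
  by_contra hh
  push Not at hh
  rcases ht.lt_or_eq with h1 | h1
  · have c0 := hh 0 (by omega)
    have c1 := hh 1 (by omega)
    have a0 := ha' 0 (by omega)
    have a1 := ha' t (by omega)
    simp only [add_zero, zero_add] at c0 a0
    rcases f4 _ _ a0 with h | h
    · have e := f1 _ _ h c0
      have := hp (by simp; omega) (by simp; omega) (f2 _ h _ a0 _ (e ▸ a1) c1)
      omega
    · have e := f1 _ _ h c1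
      have := hp (by simp; omega) (by simp; omega) (f2 _ h _ a0.symm _ (e ▸ a1.symm) c0)
      omega
  · subst h1
    exact f3 _ _ (ha' 0 (by omega)) (hh 0 (by omega))

theorem key : ∀ a0 a1 : Fin 3, a0 ≠ a1 → ∀ a2, a1 ≠ a2 → ∀ a3, a2 ≠ a3 → ∀ a4, a3 ≠ a4 →
    ∀ a5, a4 ≠ a5 → ∀ a6, a5 ≠ a6 → ∀ a7, a6 ≠ a7 → ∀ a8, a7 ≠ a8 → ∀ a9, a8 ≠ a9 →
    ∃ s < 10, ∃ t < 6, 1 ≤ t ∧ ∀ i < t,
      [a0, a1, a2, a3, a4, a5, a6, a7, a8, a9].getD ((s + i) % 10) 0 =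
      [a0, a1, a2, a3, a4, a5, a6, a7, a8, a9].getD ((s + (t + i)) % 10) 0 := by
  decide +kernel

theorem lower (c : Fin 10 → Fin 3) : ¬ Nonrep (cycleGraph 10) c := by
  intro h
  have hadj : ∀ m : ℕ, (cycleGraph 10).Adj ⟨m % 10, Nat.mod_lt _ (by norm_num)⟩
      ⟨(m + 1) % 10, Nat.mod_lt _ (by norm_num)⟩ := by
    intro m
    have : ∀ u v : Fin 10, v.val = (u.val + 1) % 10 → (cycleGraph 10).Adj u v := by
      decide +kernel
    apply this
    simp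
  have main : ∀ s t : ℕ, 1 ≤ t → t < 6 → ∃ i < t,
      c ⟨(s + i) % 10, Nat.mod_lt _ (by norm_num)⟩ ≠
        c ⟨(s + (t + i)) % 10, Nat.mod_lt _ (by norm_num)⟩ := by
    intro s t h1 h2
    refine h t h1 (fun i => ⟨(s + i) % 10, Nat.mod_lt _ (by norm_num)⟩) ?_ fun i _ => hadj (s + i)
    intro i hi j hj e
    simp only [Set.mem_Iio, Fin.mk.injEq] at hi hj e
    omega
  have n1 : ∀ s : ℕ, c ⟨s % 10, Nat.mod_lt _ (by norm_num)⟩ ≠
      c ⟨(s + 1) % 10, Nat.mod_lt _ (by norm_num)⟩ := by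
    intro s
    obtain ⟨i, hi, e⟩ := main s 1 le_rfl (by norm_num)
    have : i = 0 := by omega
    subst this
    exact e
  obtain ⟨s, -, t, h2, h1, hk⟩ := key (c 0) (c 1) (n1 0) (c 2) (n1 1) (c 3) (n1 2) (c 4) (n1 3)
    (c 5) (n1 4) (c 6) (n1 5) (c 7) (n1 6) (c 8) (n1 7) (c 9) (n1 8)
  obtain ⟨i, hi, e⟩ := main s t h1 h2
  have g : ∀ u : Fin 10, [c 0, c 1, c 2, c 3, c 4, c 5, c 6, c 7, c 8, c 9].getD u.val 0 = c u := by
    intro u
    fin_cases u <;> rfl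
  exact e ((g ⟨_, _⟩).symm.trans ((hk i hi).trans (g ⟨_, _⟩)))

theorem result : ∃ a b c : ℕ, Thue (cycleGraph 10) a ∧ Thue (⊥ : SimpleGraph (Fin 10)) b ∧
    Thue (lex (cycleGraph 10) (⊥ : SimpleGraph (Fin 10))) c ∧ c + 10 < b + a * 10 := by
  have h1 : 10 ∈ {k | ∃ c : Fin 10 → Fin k, Nonrep (cycleGraph 10) c} :=
    ⟨id, nonrep_inj _ _ Function.injective_id⟩
  have h2 : 10 ∈ {k | ∃ c : Fin 10 → Fin k, Nonrep (⊥ : SimpleGraph (Fin 10)) c} :=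
    ⟨id, nonrep_inj _ _ Function.injective_id⟩
  have h3 : 30 ∈ {k | ∃ c : Fin 10 × Fin 10 → Fin k,
      Nonrep (lex (cycleGraph 10) (⊥ : SimpleGraph (Fin 10))) c} := ⟨col, upper⟩
  have l1 := isLeast_csInf ⟨_, h1⟩
  have l2 := isLeast_csInf ⟨_, h2⟩
  have l3 := isLeast_csInf ⟨_, h3⟩
  refine ⟨_, _, _, l1, l2, l3, ?_⟩
  have b3 := l3.2 h3
  obtain ⟨c1, hc1⟩ := l1.1
  obtain ⟨c2, -⟩ := l2.1
  have b2 := (c2 0).pos
  have b1 : ¬ sInf {k | ∃ c : Fin 10 → Fin k, Nonrep (cycleGraph 10) c} ≤ 3 := by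
    intro hle
    apply lower (fun v => Fin.castLE hle (c1 v))
    intro t ht p hp ha
    obtain ⟨i, hi, e⟩ := hc1 t ht p hp ha
    exact ⟨i, hi, fun h => e (Fin.castLE_injective hle h)⟩
  omega

end Pool.Agent.Results.MP_35dbbb_co.Lex
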